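import Pool.Agent.N817.PL.Log

/-!
# Closures of the powers of a `p`-adic number near `1`
-/

set_option autoImplicit false

namespace Pool.Agent.N683.TE

open Filter Topology Pool.Agent.N817.PL

section near

variable {F : Type*} [NormedField F] [IsUltrametricDist F] {δ : ℝ}

lemma norm_one_of_near {x : F} (h : ‖x - 1‖ < 1) : ‖x‖ = 1 := by
  have h1 : x = 1 + (x - 1) := by ring
  have h2 : ‖(1 : F)‖ ≠ ‖x - 1‖ := by
    rw [norm_one]
    exact h.ne'
  rw [h1, IsUltrametricDist.norm_add_eq_max_of_norm_ne_norm h2, norm_one]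
  exact max_eq_left h.le

lemma near_ne {x : F} (h : ‖x - 1‖ < 1) : x ≠ 0 := by
  intro h0
  have h1 := norm_one_of_near h
  rw [h0, norm_zero] at h1
  exact zero_ne_one h1

lemma near_mul (hδ : δ < 1) {x y : F} (hx : ‖x - 1‖ ≤ δ) (hy : ‖y - 1‖ ≤ δ) : ‖x * y - 1‖ ≤ δ := by
  have h1 : x * y - 1 = x * (y - 1) + (x - 1) := by ring
  rw [h1]
  refine (IsUltrametricDist.norm_add_le_max _ _).trans (max_le ?_ hx)
  rw [norm_mul, norm_one_of_near (hx.trans_lt hδ), one_mul]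
  exact hy

lemma near_inv (hδ : δ < 1) {x : F} (hx : ‖x - 1‖ ≤ δ) : ‖x⁻¹ - 1‖ ≤ δ := by
  have h0 := near_ne (hx.trans_lt hδ)
  have h1 : x⁻¹ - 1 = x⁻¹ * -(x - 1) := by
    field_simp
    ring
  rw [h1, norm_mul, norm_inv, norm_one_of_near (hx.trans_lt hδ), inv_one, one_mul, norm_neg]
  exact hx

lemma near_pow (hδ : δ < 1) {x : F} (hx : ‖x - 1‖ ≤ δ) (m : ℕ) : ‖x ^ m - 1‖ ≤ δ := by
  induction m with
  | zero =>
    rw [pow_zero, sub_self, norm_zero]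
    exact (norm_nonneg _).trans hx
  | succ m ih =>
    rw [pow_succ]
    exact near_mul hδ ih hx

lemma near_zpow (hδ : δ < 1) {x : F} (hx : ‖x - 1‖ ≤ δ) (m : ℤ) : ‖x ^ m - 1‖ ≤ δ := by
  cases m with
  | ofNat m =>
    rw [Int.ofNat_eq_natCast, zpow_natCast]
    exact near_pow hδ hx m
  | negSucc m =>
    rw [zpow_negSucc]
    exact near_inv hδ (near_pow hδ hx _)

lemma near_prod (hδ0 : 0 ≤ δ) (hδ : δ < 1) {ι : Type*} (s : Finset ι) {x : ι → F}
    (hx : ∀ i ∈ s, ‖x i - 1‖ ≤ δ) : ‖∏ i ∈ s, x i - 1‖ ≤ δ := by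
  classical
  induction s using Finset.induction_on with
  | empty =>
    rw [Finset.prod_empty, sub_self, norm_zero]
    exact hδ0
  | insert j s hj ih =>
    rw [Finset.prod_insert hj]
    exact near_mul hδ (hx j (Finset.mem_insert_self j s))
      (ih fun i hi => hx i (Finset.mem_insert_of_mem hi))

end near

section padic

variable {p : ℕ} [hp : Fact p.Prime]

lemma norm_pow_sub_one {x : ℚ_[p]} (hx : ‖x‖ ≤ 1 / 4) (k : ℕ) :
    ‖(1 + x) ^ p ^ k - 1‖ = ‖x‖ * ((p : ℝ)⁻¹) ^ k := by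
  have h3 : (p : ℚ_[p]) ≠ 0 := by exact_mod_cast hp.out.ne_zero
  have h1 : ‖Log.f p k x‖ = ‖x‖ := by
    by_cases h0 : x = 0
    · subst h0
      unfold Log.f
      simp
    have h4 : 0 < ‖x‖ := norm_pos_iff.2 h0
    have h2 := Log.phi_norm (p := p) hx k
    have h5 : Log.f p k x = x - Log.φ p k x := by
      unfold Log.φ
      abel
    have h6 : ‖Log.φ p k x‖ < ‖x‖ := by
      refine h2.trans_lt ?_
      nlinarith
    rw [h5, sub_eq_add_neg, IsUltrametricDist.norm_add_eq_max_of_norm_ne_norm (by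
      rw [norm_neg]
      exact h6.ne'), norm_neg]
    exact max_eq_left h6.le
  have h2 : (1 + x) ^ p ^ k - 1 = (p : ℚ_[p]) ^ k * Log.f p k x := by
    unfold Log.f
    rw [smul_eq_mul, ← mul_assoc, ← mul_pow, mul_inv_cancel₀ h3, one_pow, one_mul]
  rw [h2, norm_mul, norm_pow, Padic.norm_p, h1, mul_comm]

lemma norm_lt_one_le {x : ℚ_[p]} (hx : ‖x‖ < 1) : ‖x‖ ≤ (p : ℝ)⁻¹ := by
  have h1 := (Padic.norm_le_pow_iff_norm_lt_pow_add_one x (-1)).2 (by
    rw [neg_add_cancel, zpow_zero]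
    exact hx)
  rwa [zpow_neg_one] at h1

/-- the approximation by powers -/
lemma approx {c t : ℚ_[p]} (hc : ‖c - 1‖ ≤ 1 / 4) (hc0 : c ≠ 1) (ht : ‖t - 1‖ ≤ ‖c - 1‖) (j : ℕ) :
    ∃ a : ℕ, ‖t - c ^ a‖ ≤ ‖c - 1‖ * ((p : ℝ)⁻¹) ^ j := by
  have hp0 : (0 : ℝ) < p := by exact_mod_cast hp.out.pos
  have hp1 : (1 : ℝ) < p := by exact_mod_cast hp.out.one_lt
  have hx0 : 0 < ‖c - 1‖ := norm_pos_iff.2 (sub_ne_zero.2 hc0)
  induction j with
  | zero => exact ⟨0, by simpa using ht⟩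
  | succ j ih =>
    obtain ⟨a, ha⟩ := ih
    have hcn : ‖c ^ a‖ = 1 := by
      rw [norm_pow, norm_one_of_near (hc.trans_lt (by norm_num)), one_pow]
    have hca0 : c ^ a ≠ 0 := by
      intro h0
      rw [h0, norm_zero] at hcn
      exact zero_ne_one hcn
    set y : ℚ_[p] := c ^ p ^ j - 1 with hy
    have hyn : ‖y‖ = ‖c - 1‖ * ((p : ℝ)⁻¹) ^ j := by
      have := norm_pow_sub_one (p := p) hc j
      rwa [add_sub_cancel] at this
    have hypos : 0 < ‖y‖ := by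
      rw [hyn]
      positivity
    have hy0 : y ≠ 0 := norm_pos_iff.1 hypos
    have hy4 : ‖y‖ ≤ 1 / 4 := by
      rw [hyn]
      have h1 : ((p : ℝ)⁻¹) ^ j ≤ 1 := pow_le_one₀ (by positivity) (inv_le_one_of_one_le₀ hp1.le)
      nlinarith
    set z : ℚ_[p] := t * (c ^ a)⁻¹ - 1 with hz
    have hzn : ‖z‖ ≤ ‖y‖ := by
      have h1 : z = (t - c ^ a) * (c ^ a)⁻¹ := by
        rw [hz]
        field_simp
      rw [h1, norm_mul, norm_inv, hcn, inv_one, mul_one, hyn]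
      exact ha
    have hq : ‖z / y‖ ≤ 1 := by
      rw [norm_div]
      exact (div_le_one hypos).2 hzn
    obtain ⟨q, hqq⟩ : ∃ q : ℤ_[p], (q : ℚ_[p]) = z / y := ⟨⟨z / y, hq⟩, rfl⟩
    obtain ⟨b, -, hb⟩ := PadicInt.exists_mem_range (p := p) q
    have hb1 : ‖z / y - (b : ℚ_[p])‖ ≤ (p : ℝ)⁻¹ := by
      apply norm_lt_one_le
      rw [PadicInt.maximalIdeal_eq_span_p, Ideal.mem_span_singleton] at hb
      have h1 := (PadicInt.norm_lt_one_iff_dvd _).2 hb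
      rw [PadicInt.norm_def, PadicInt.coe_sub, PadicInt.coe_natCast, hqq] at h1
      exact h1
    have hb2 : ‖z - (b : ℚ_[p]) * y‖ ≤ (p : ℝ)⁻¹ * ‖y‖ := by
      have h1 : z - (b : ℚ_[p]) * y = (z / y - b) * y := by
        field_simp
      rw [h1, norm_mul]
      exact mul_le_mul_of_nonneg_right hb1 (norm_nonneg _)
    have hquad := Log.pow_quad (p := p) (b := y) (hy4.trans (by norm_num)) b
    rw [smul_eq_mul] at hquad
    have hy2 : ‖y‖ ^ 2 ≤ (p : ℝ)⁻¹ * ‖y‖ := by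
      rw [pow_two]
      exact mul_le_mul_of_nonneg_right (norm_lt_one_le (hy4.trans_lt (by norm_num))) (norm_nonneg _)
    refine ⟨a + p ^ j * b, ?_⟩
    have h1 : t - c ^ (a + p ^ j * b) =
        c ^ a * ((z - (b : ℚ_[p]) * y) - ((1 + y) ^ b - 1 - (b : ℚ_[p]) * y)) := by
      rw [pow_add, pow_mul, hz, hy]
      field_simp
      ring
    rw [h1, norm_mul, hcn, one_mul]
    refine (Log.norm_sub_max _ _).trans (max_le ?_ ?_)
    · refine hb2.trans (le_of_eq ?_)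
      rw [hyn, pow_succ]
      ring
    · refine (hquad.trans hy2).trans (le_of_eq ?_)
      rw [hyn, pow_succ]
      ring

/-- **The closure of the powers.** -/
theorem mem_of_powers {c t : ℚ_[p]} (hc : ‖c - 1‖ ≤ 1 / 4) (hc0 : c ≠ 1) (ht : ‖t - 1‖ ≤ ‖c - 1‖)
    {C : Set ℚ_[p]} (hC : IsClosed C) (hpow : ∀ a : ℕ, c ^ a ∈ C) : t ∈ C := by
  have hp1 : (1 : ℝ) < p := by exact_mod_cast hp.out.one_lt
  rw [← hC.closure_eq, Metric.mem_closure_iff]
  intro ε hε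
  have hx0 : 0 < ‖c - 1‖ := norm_pos_iff.2 (sub_ne_zero.2 hc0)
  obtain ⟨j, hj⟩ := exists_pow_lt_of_lt_one (div_pos hε hx0) (inv_lt_one_of_one_lt₀ hp1)
  obtain ⟨a, ha⟩ := approx hc hc0 ht j
  refine ⟨c ^ a, hpow a, ?_⟩
  rw [dist_eq_norm]
  refine ha.trans_lt ?_
  rw [lt_div_iff₀ hx0] at hj
  rw [mul_comm]
  exact hj

end padic

end Pool.Agent.N683.TE
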