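import Pool.Agent.N817.PL.Main2
import Pool.Agent.Y759.TS.Kol
import Pool.Agent.N683.TE.Z

/-!
# Frobenius eigenvalues in the group generated by finitely many characters
-/

set_option autoImplicit false
set_option linter.unusedSectionVars false

namespace Pool.Agent.N683.TE

open Pool.Agent.N817.PL Pool.Agent.N817.PL.DD Pool.Agent.N817.PL.Nrm
open Pool.Agent.N817.PL.Abs3 (Ss)
open Filter Topology Polynomial NumberField IsDedekindDomain
open Pool.Agent.W401.Cheb Pool.Agent.W528.Ord

section bound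

variable {F : Type*} [NormedField F] [IsUltrametricDist F] {δ : ℝ}

lemma prod_bound (hδ0 : 0 ≤ δ) (hδ : δ ≤ 1) {s : F} (hs : ‖s‖ ≤ 1) {ι : Type*} (T : Finset ι)
    (e : ι → F) (he : ∀ i ∈ T, ‖e i‖ ≤ δ) : ‖∏ i ∈ T, (s - e i) - s ^ T.card‖ ≤ δ := by
  classical
  induction T using Finset.induction_on with
  | empty =>
    rw [Finset.prod_empty, Finset.card_empty, pow_zero, sub_self, norm_zero]
    exact hδ0
  | insert j T hj ih =>
    have ih' := ih fun i hi => he i (Finset.mem_insert_of_mem hi)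
    have hej := he j (Finset.mem_insert_self j T)
    rw [Finset.prod_insert hj, Finset.card_insert_of_notMem hj]
    have h1 : (s - e j) * ∏ i ∈ T, (s - e i) - s ^ (T.card + 1) =
        (s - e j) * (∏ i ∈ T, (s - e i) - s ^ T.card) - e j * s ^ T.card := by
      ring
    rw [h1]
    refine (Log.norm_sub_max _ _).trans (max_le ?_ ?_)
    · rw [norm_mul]
      have h2 : ‖s - e j‖ ≤ 1 := (Log.norm_sub_max _ _).trans (max_le hs (hej.trans hδ))
      calc _ ≤ 1 * δ := mul_le_mul h2 ih' (norm_nonneg _) zero_le_one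
        _ = δ := one_mul δ
    · rw [norm_mul, norm_pow]
      calc _ ≤ δ * 1 := mul_le_mul hej (pow_le_one₀ (norm_nonneg _) hs) (by positivity) hδ0
        _ = δ := mul_one δ

/-- the characteristic polynomial of a matrix whose eigenvalues are near `1` -/
lemma eval_bound {n : ℕ} (hδ0 : 0 ≤ δ) (hδ : δ ≤ 1) {B : Mat n F}
    (h : ∀ a : AlgebraicClosure F, (B.charpoly.map (algebraMap F (AlgebraicClosure F))).IsRoot a →
      ∃ b : F, a = algebraMap F (AlgebraicClosure F) b ∧ ‖b - 1‖ ≤ δ) (s : F) (hs : ‖s‖ ≤ 1) :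
    ‖B.charpoly.eval (1 + s) - s ^ n‖ ≤ δ := by
  set f := algebraMap F (AlgebraicClosure F) with hf
  set q := B.charpoly.map f with hq
  have hqm : q.Monic := B.charpoly_monic.map f
  have hqd : q.natDegree = n := by
    rw [hq, B.charpoly_monic.natDegree_map, Matrix.charpoly_natDegree_eq_dim, Fintype.card_fin]
  have hspl : q.Splits := IsAlgClosed.splits q
  have h4 : q = (q.roots.map fun b => X - C b).prod := by
    have := hspl.eq_prod_roots
    rw [hqm.leadingCoeff, C_1, one_mul] at this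
    exact this
  have h5 : Multiset.card q.roots = n := by rw [← hspl.natDegree_eq_card_roots, hqd]
  obtain ⟨l, hl, hl'⟩ := Spl.lift_multiset (fun b : F => f b)
    (fun b => ‖b - 1‖ ≤ δ) q.roots (fun x hx => h x (isRoot_of_mem_roots hx))
  have hlen : l.length = n := by
    rw [hl', Multiset.coe_card, List.length_map] at h5
    exact h5
  have hB : B.charpoly = ∏ i : Fin n, (X - C (l.get (i.cast hlen.symm))) := by
    apply Polynomial.map_injective f f.injective
    rw [← hq, h4, hl', Multiset.map_coe, Multiset.prod_coe, List.map_map, Polynomial.map_prod]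
    subst hlen
    simp only [Polynomial.map_sub, map_X, map_C]
    rw [← List.prod_ofFn]
    congr 1
    apply List.ext_get
    · simp
    · intro i h1 h2
      simp
  rw [hB, eval_prod]
  have h6 := prod_bound hδ0 hδ hs (Finset.univ : Finset (Fin n))
    (fun i => l.get (i.cast hlen.symm) - 1) (fun i _ => hl _ (List.get_mem _ _))
  rw [Finset.card_univ, Fintype.card_fin] at h6
  refine le_trans (le_of_eq ?_) h6
  congr 2
  refine Finset.prod_congr rfl fun i _ => ?_
  rw [eval_sub, eval_X, eval_C]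
  ring

end bound

section poly

variable {F : Type*} [Field F] {n : ℕ}

/-- a matrix with the only eigenvalue `1` is unipotent -/
lemma nil_of_eig {A : Mat n F} (h : ∀ a : AlgebraicClosure F,
    (A.charpoly.map (algebraMap F (AlgebraicClosure F))).IsRoot a → a = 1) :
    IsNilpotent (A - 1) := by
  set f := algebraMap F (AlgebraicClosure F) with hf
  set q := A.charpoly.map f with hq
  have hqm : q.Monic := A.charpoly_monic.map f
  have hqd : q.natDegree = n := by
    rw [hq, A.charpoly_monic.natDegree_map, Matrix.charpoly_natDegree_eq_dim, Fintype.card_fin]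
  have hspl : q.Splits := IsAlgClosed.splits q
  have h4 : q = (q.roots.map fun b => X - C b).prod := by
    have := hspl.eq_prod_roots
    rw [hqm.leadingCoeff, C_1, one_mul] at this
    exact this
  have h5 : Multiset.card q.roots = n := by rw [← hspl.natDegree_eq_card_roots, hqd]
  have h6 : q.roots = Multiset.replicate n 1 := by
    rw [Multiset.eq_replicate]
    exact ⟨h5, fun b hb => h b (isRoot_of_mem_roots hb)⟩
  have h7 : A.charpoly = (X - C 1) ^ n := by
    apply Polynomial.map_injective f f.injective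
    rw [← hq, h4, h6, Multiset.map_replicate, Multiset.prod_replicate, Polynomial.map_pow,
      Polynomial.map_sub, map_X, map_C, map_one f]
  refine ⟨n, ?_⟩
  have h8 := Matrix.aeval_self_charpoly A
  rw [h7, map_pow, map_sub, aeval_X, aeval_C, map_one] at h8
  exact h8

/-- the eigenvalues of a power -/
lemma root_pow {A : Mat n F} {N : ℕ} (hN : 0 < N) {a : AlgebraicClosure F}
    (ha : ((A ^ N).charpoly.map (algebraMap F (AlgebraicClosure F))).IsRoot a) :
    ∃ b, (A.charpoly.map (algebraMap F (AlgebraicClosure F))).IsRoot b ∧ a = b ^ N := by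
  rw [← Matrix.charpoly_map] at ha
  have h1 : a ∈ spectrum (AlgebraicClosure F)
      (((algebraMap F (AlgebraicClosure F)).mapMatrix A) ^ N) := by
    rw [Matrix.mem_spectrum_iff_isRoot_charpoly, ← map_pow]
    exact ha
  rw [spectrum.map_pow_of_pos _ hN] at h1
  obtain ⟨b, hb, rfl⟩ := h1
  rw [Matrix.mem_spectrum_iff_isRoot_charpoly] at hb
  refine ⟨b, ?_, rfl⟩
  rw [← Matrix.charpoly_map]
  exact hb

lemma pow_root {A : Mat n F} {N : ℕ} {a : AlgebraicClosure F}
    (ha : (A.charpoly.map (algebraMap F (AlgebraicClosure F))).IsRoot a) :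
    ((A ^ N).charpoly.map (algebraMap F (AlgebraicClosure F))).IsRoot (a ^ N) := by
  rw [← Matrix.charpoly_map] at ha ⊢
  have h1 : a ^ N ∈ spectrum (AlgebraicClosure F)
      (((algebraMap F (AlgebraicClosure F)).mapMatrix A) ^ N) := by
    apply spectrum.pow_mem_pow
    rw [Matrix.mem_spectrum_iff_isRoot_charpoly]
    exact ha
  rw [Matrix.mem_spectrum_iff_isRoot_charpoly, ← map_pow] at h1
  exact h1

/-- a normal subgroup which acts by unipotent matrices acts trivially in a semisimple representation -/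
theorem trivial_of_unipotent {F : Type} [Field F] {n : ℕ} {G : Type} [Group G] (r : G →* Mat n F)
    (hss : Ss r) (H : Subgroup G) (hH : ∀ g : G, ∀ h ∈ H, g * h * g⁻¹ ∈ H)
    (hu : ∀ h ∈ H, IsNilpotent (r h - 1)) : ∀ h ∈ H, r h = 1 := by
  classical
  let W : Submodule F (Fin n → F) :=
    { carrier := {w | ∀ h ∈ H, (r h).mulVec w = w}
      zero_mem' := fun h _ => Matrix.mulVec_zero _
      add_mem' := by
        intro a b ha hb h hh
        rw [Matrix.mulVec_add, ha h hh, hb h hh]
      smul_mem' := by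
        intro c a ha h hh
        rw [Matrix.mulVec_smul, ha h hh] }
  have hWst : ∀ g, ∀ x ∈ W, (r g).mulVec x ∈ W := by
    intro g x hx h hh
    have h1 : g⁻¹ * h * g ∈ H := by
      have := hH g⁻¹ h hh
      rwa [inv_inv] at this
    have h2 : h * g = g * (g⁻¹ * h * g) := by group
    rw [Matrix.mulVec_mulVec, ← map_mul, h2, map_mul, ← Matrix.mulVec_mulVec, hx _ h1]
  obtain ⟨W', hW'st, hc⟩ := hss W hWst
  -- the group of matrices
  let ρ : H →* GL (Fin n) F := ((r.comp H.subtype).toHomUnits)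
  have hρ : ∀ h : H, ((ρ h : GL (Fin n) F) : Matrix (Fin n) (Fin n) F) = r h := fun h => rfl
  have hkol := Pool.Agent.Y759.TS.t_KOL F H n ρ (fun g => by
    rw [hρ]
    exact hu g g.2)
  have hbot : W' = ⊥ := by
    by_contra hne
    obtain ⟨w, hw, hw0⟩ := Submodule.exists_mem_ne_zero_of_ne_bot hne
    -- long products vanish
    have key : ∀ k : ℕ, ∃ g : Fin k → H, ∃ z ∈ W', z ≠ 0 ∧
        ((List.ofFn fun i => ((ρ (g i) : GL (Fin n) F) : Matrix (Fin n) (Fin n) F) - 1).prod).mulVec w = z := by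
      intro k
      induction k with
      | zero =>
        exact ⟨Fin.elim0, w, hw, hw0, by simp⟩
      | succ k ih =>
        obtain ⟨g, z, hz, hz0, hgz⟩ := ih
        have h1 : z ∉ W := by
          intro hzW
          apply hz0
          have h2 := (Submodule.disjoint_def.1 hc.disjoint) z hzW hz
          exact h2
        have h2 : ∃ h ∈ H, (r h).mulVec z ≠ z := by
          by_contra hcon
          push Not at hcon
          exact h1 hcon
        obtain ⟨h, hh, hhz⟩ := h2
        refine ⟨Fin.cons ⟨h, hh⟩ g, (r h).mulVec z - z, W'.sub_mem (hW'st h z hz) hz,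
          sub_ne_zero.2 hhz, ?_⟩
        rw [List.ofFn_succ, List.prod_cons, ← Matrix.mulVec_mulVec]
        simp only [Fin.cons_zero, Fin.cons_succ]
        rw [hgz, Matrix.sub_mulVec, Matrix.one_mulVec, hρ]
    obtain ⟨g, z, -, hz0, hgz⟩ := key n
    apply hz0
    rw [← hgz, hkol g, Matrix.zero_mulVec]
  have hWtop : W = ⊤ := by
    rw [hbot] at hc
    exact eq_top_of_isCompl_bot hc
  intro h hh
  apply Matrix.toLin'.injective
  refine LinearMap.ext fun w => ?_
  rw [Matrix.toLin'_apply, Matrix.toLin'_apply, Matrix.one_mulVec]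
  have h1 : w ∈ W := by
    rw [hWtop]
    trivial
  exact h1 h hh

end poly

attribute [local instance] nring nalg

/-- **The theorem on several characters.** -/
theorem main_a {K : Type} [Field K] [NumberField K] (p : ℕ) [hp : Fact p.Prime] {F : Type}
    [NormedField F] [NormedAlgebra ℚ_[p] F] [CompleteSpace F] {n k : ℕ}
    (r : GK K →* Mat n F) (hr : Continuous r) (hss : Ss r)
    (ψ : Fin k → (GK K →* F)) (hψ : ∀ i, Continuous (ψ i)) {d : ℕ} (hd : 0 < d)
    (P : Set (HeightOneSpectrum (𝓞 K)))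
    (hP : ∀ ε : ℝ, 0 < ε → ∃ᶠ x : ℕ in atTop, dens (fun v => v ∉ P) x ≤ ε)
    (heig : ∀ v ∈ P, ∃ g, IsFrob v g ∧ ∀ a : AlgebraicClosure F,
      ((r g).charpoly.map (algebraMap F (AlgebraicClosure F))).IsRoot a →
        ∃ m : Fin k → ℤ, ∃ l : ℕ, 0 < l ∧
          a ^ (d * l) = algebraMap F (AlgebraicClosure F) (∏ i, ψ i g ^ m i) ^ l) :
    ∃ U : OpenNormalSubgroup (GK K), (∀ u ∈ (U : Subgroup (GK K)), ∀ M : Mat n F, M = r u →
      ∀ i j, ‖(M - 1) i j‖ ≤ 1 / 4) ∧ (∀ u ∈ (U : Subgroup (GK K)), ∀ i, ‖ψ i u - 1‖ ≤ 1 / 4) ∧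
      ∀ u ∈ (U : Subgroup (GK K)), (∀ i, ψ i u = 1) → r u = 1 := by
  have hult : IsUltrametricDist F := ultra p F
  have hinf : Infinite {s : F // ‖s‖ ≤ 1} := by
    have h0 : Function.Injective fun m : ℕ => (⟨algebraMap ℚ_[p] F m, by
      rw [norm_algebraMap']
      have := Padic.norm_int_le_one (p := p) (m : ℤ)
      simpa using this⟩ : {s : F // ‖s‖ ≤ 1}) := by
      intro a b hab
      have h1 := congrArg Subtype.val hab
      have h2 := (algebraMap ℚ_[p] F).injective h1
      exact_mod_cast h2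
    exact Infinite.of_injective _ h0
  have hO : IsOpen {g : GK K | ∀ i, ‖ψ i g - 1‖ < 1 / 4} := by
    have h1 : {g : GK K | ∀ i, ‖ψ i g - 1‖ < 1 / 4} = ⋂ i, {g : GK K | ‖ψ i g - 1‖ < 1 / 4} := by
      ext g
      simp
    rw [h1]
    exact isOpen_iInter_of_finite fun i =>
      isOpen_lt (((hψ i).sub continuous_const).norm) continuous_const
  let instM : MeasurableSpace (GK K) := borel (GK K)
  have instB : BorelSpace (GK K) := ⟨rfl⟩
  obtain ⟨U, hUO, hU⟩ := Top.exists_small r hr _ hO (by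
    intro i
    rw [map_one, sub_self, norm_zero]
    norm_num)
  have hUn : (U : Subgroup (GK K)).Normal := U.isNormal'
  have hUψ : ∀ u ∈ (U : Subgroup (GK K)), ∀ i, ‖ψ i u - 1‖ ≤ 1 / 4 := fun u hu i =>
    (hUO hu i).le
  set N := (U : Subgroup (GK K)).index with hN
  have hN0 : 0 < N := Nat.pos_of_ne_zero (Top2.index_ne U)
  have hmem : ∀ g : GK K, g ^ N ∈ (U : Subgroup (GK K)) := fun g =>
    Subgroup.pow_index_mem (U : Subgroup (GK K)) g
  have hrN : ∀ g, ‖r g ^ N - 1‖ ≤ 1 / 4 := by
    intro g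
    rw [← map_pow]
    exact hU _ (hmem g)
  -- the distance of the characters from `1`
  let δ : GK K → ℝ := fun g => ‖fun i => ψ i g ^ N - 1‖
  have hδc : Continuous δ := by
    have h1 : Continuous fun g : GK K => fun i => ψ i g ^ N - 1 :=
      continuous_pi fun i => ((hψ i).pow N).sub continuous_const
    exact h1.norm
  have hδ0 : ∀ g, 0 ≤ δ g := fun g => norm_nonneg _
  have hδ4 : ∀ g, δ g ≤ 1 / 4 := by
    intro g
    refine (pi_norm_le_iff_of_nonneg (by norm_num)).2 fun i => ?_
    rw [← map_pow]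
    exact hUψ _ (hmem g) i
  have hδi : ∀ g i, ‖ψ i g ^ N - 1‖ ≤ δ g := fun g i => norm_le_pi_norm (fun i => ψ i g ^ N - 1) i
  have hall : ∀ g, ∀ s : F, ‖s‖ ≤ 1 →
      ‖(r g ^ (d * N)).charpoly.eval (1 + s) - s ^ n‖ ≤ δ g := by
    refine Main2.closed_univ {g | ∀ s : F, ‖s‖ ≤ 1 →
      ‖(r g ^ (d * N)).charpoly.eval (1 + s) - s ^ n‖ ≤ δ g} ?_ ?_ P hP ?_
    · have h1 : {g | ∀ s : F, ‖s‖ ≤ 1 →
          ‖(r g ^ (d * N)).charpoly.eval (1 + s) - s ^ n‖ ≤ δ g} =
          ⋂ s : F, {g | ‖s‖ ≤ 1 → ‖(r g ^ (d * N)).charpoly.eval (1 + s) - s ^ n‖ ≤ δ g} := by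
        ext g
        simp
      rw [h1]
      refine isClosed_iInter fun s => ?_
      by_cases hs : ‖s‖ ≤ 1
      · simp only [hs, true_imp_iff]
        refine isClosed_le ?_ hδc
        refine Continuous.norm (Continuous.sub ?_ continuous_const)
        simp only [Matrix.eval_charpoly]
        have h2 : Continuous fun g => r g ^ (d * N) := hr.pow _
        exact (continuous_const.sub h2).matrix_det
      · simp only [hs, false_imp_iff, Set.ofPred_true]
        exact isClosed_univ
    · intro σ hσ τ s hs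
      have h1 : r (τ * σ * τ⁻¹) ^ (d * N) = r τ * r σ ^ (d * N) * r τ⁻¹ := by
        rw [← map_pow, ← map_pow, ← map_mul, ← map_mul, conj_pow]
      have h2 : (r (τ * σ * τ⁻¹) ^ (d * N)).charpoly = (r σ ^ (d * N)).charpoly := by
        let M : (Mat n F)ˣ := ⟨r τ, r τ⁻¹, by rw [← map_mul, mul_inv_cancel, map_one],
          by rw [← map_mul, inv_mul_cancel, map_one]⟩
        have h3 : r (τ * σ * τ⁻¹) ^ (d * N) = (M : Mat n F) * r σ ^ (d * N) * (M⁻¹ : (Mat n F)ˣ) := h1
        rw [h3, Matrix.coe_units_inv, Matrix.charpoly_units_conj]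
      have h3 : δ (τ * σ * τ⁻¹) = δ σ := by
        change ‖fun i => ψ i (τ * σ * τ⁻¹) ^ N - 1‖ = ‖fun i => ψ i σ ^ N - 1‖
        congr 1
        funext i
        have h4 : ψ i τ * ψ i τ⁻¹ = 1 := by rw [← map_mul, mul_inv_cancel, map_one]
        rw [map_mul, map_mul, mul_right_comm, h4, one_mul]
      rw [h2, h3]
      exact hσ s hs
    · intro v hv
      obtain ⟨g, hg, hga⟩ := heig v hv
      refine ⟨g, ?_, hg⟩
      intro s hs
      refine eval_bound (hδ0 g) ((hδ4 g).trans (by norm_num)) ?_ s hs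
      intro a ha
      obtain ⟨b, hb, rfl⟩ := root_pow (Nat.mul_pos hd hN0) ha
      obtain ⟨m, l, hl, hbl⟩ := hga b hb
      have hc : ‖(∏ i, ψ i g ^ m i) ^ N - 1‖ ≤ δ g := by
        rw [← Finset.prod_pow]
        refine near_prod (hδ0 g) ((hδ4 g).trans_lt (by norm_num)) _ fun i _ => ?_
        rw [← zpow_natCast, ← _root_.zpow_mul, mul_comm, _root_.zpow_mul, zpow_natCast]
        exact near_zpow ((hδ4 g).trans_lt (by norm_num)) (hδi g i) (m i)
      have h1 := Unif.eig_eq p (hrN g) (hc.trans (hδ4 g)) hl hb hbl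
      refine ⟨(∏ i, ψ i g ^ m i) ^ N, ?_, hc⟩
      rw [h1, map_pow]
  refine ⟨U, fun u hu M hM i j => ?_, hUψ, ?_⟩
  · rw [hM]
    exact (norm_entry _ i j).trans (hU u hu)
  -- the subgroup
  let H : Subgroup (GK K) :=
    { carrier := {u | u ∈ (U : Subgroup (GK K)) ∧ ∀ i, ψ i u = 1}
      one_mem' := ⟨(U : Subgroup (GK K)).one_mem, fun i => map_one _⟩
      mul_mem' := by
        rintro a b ⟨ha, ha'⟩ ⟨hb, hb'⟩
        exact ⟨(U : Subgroup (GK K)).mul_mem ha hb, fun i => by rw [map_mul, ha', hb', one_mul]⟩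
      inv_mem' := by
        rintro a ⟨ha, ha'⟩
        refine ⟨(U : Subgroup (GK K)).inv_mem ha, fun i => ?_⟩
        have h1 : ψ i a * ψ i a⁻¹ = 1 := by rw [← map_mul, mul_inv_cancel, map_one]
        rwa [ha' i, one_mul] at h1 }
  have hH : ∀ g : GK K, ∀ h ∈ H, g * h * g⁻¹ ∈ H := by
    rintro g h ⟨hh, hh'⟩
    refine ⟨hUn.conj_mem h hh g, fun i => ?_⟩
    rw [map_mul, map_mul, hh' i, mul_one, ← map_mul, mul_inv_cancel, map_one]
  have hHu : ∀ h ∈ H, IsNilpotent (r h - 1) := by
    rintro h ⟨hh, hh'⟩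
    have hδh : δ h = 0 := by
      change ‖fun i => ψ i h ^ N - 1‖ = 0
      rw [norm_eq_zero]
      funext i
      rw [hh' i, one_pow, sub_self]
      rfl
    have h1 : (r h ^ (d * N)).charpoly = (X - C 1) ^ n := by
      refine Polynomial.eq_of_infinite_eval_eq _ _ ?_
      have h2 : Set.range (fun s : {s : F // ‖s‖ ≤ 1} => 1 + (s : F)) ⊆
          {x | (r h ^ (d * N)).charpoly.eval x = ((X - C 1) ^ n : Polynomial F).eval x} := by
        rintro _ ⟨⟨s, hs⟩, rfl⟩
        have h3 := hall h s hs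
        rw [hδh] at h3
        have h4 := sub_eq_zero.1 (norm_le_zero_iff.1 h3)
        simp only [Set.mem_ofPred_eq]
        rw [h4, eval_pow, eval_sub, eval_X, eval_C, add_sub_cancel_left]
      refine Set.Infinite.mono h2 (Set.infinite_range_of_injective ?_)
      intro a b hab
      exact Subtype.ext (add_left_cancel hab)
    refine nil_of_eig fun a ha => ?_
    have h2 := pow_root (N := d * N) ha
    rw [h1, Polynomial.map_pow, Polynomial.map_sub, map_X, map_C, map_one, IsRoot.def, eval_pow,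
      eval_sub, eval_X, eval_C] at h2
    have h3 : a ^ (d * N) = 1 := by
      have := eq_zero_of_pow_eq_zero h2
      exact sub_eq_zero.1 this
    have h4 := Unif.eig_eq p (A := r h) (c := (1 : F)) (d := 1) (N := 1) (m := d * N) (by
      rw [pow_one]
      exact hU h hh) (by
      rw [one_pow, sub_self, norm_zero]
      norm_num) (Nat.mul_pos hd hN0) ha (by
      rw [one_mul, h3, map_one, one_pow])
    rw [one_mul, pow_one, map_one, one_pow] at h4
    exact h4
  intro u hu hu'
  exact trivial_of_unipotent r hss H hH hHu u ⟨hu, hu'⟩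

end Pool.Agent.N683.TE
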