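import Pool.Agent.N683.TE.A

/-!
# One character: irreducible representations
-/

set_option autoImplicit false
set_option linter.unusedSectionVars false

namespace Pool.Agent.N683.TE

open Pool.Agent.N817.PL Pool.Agent.N817.PL.DD Pool.Agent.N817.PL.Nrm
open Pool.Agent.N817.PL.Abs3 (Ss)
open Pool.Agent.N817.PL.Iso (Irr)
open Filter Topology Polynomial NumberField IsDedekindDomain
open Pool.Agent.W401.Cheb Pool.Agent.W528.Ord

lemma ss_of_irr {F : Type*} [Field F] {n : ℕ} {G : Type*} [Group G] {r : G →* Mat n F}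
    (h : Irr r) : Ss r := by
  intro V hV
  rcases h V hV with rfl | rfl
  · exact ⟨⊤, fun _ _ _ => Submodule.mem_top, isCompl_bot_top⟩
  · refine ⟨⊥, fun g x hx => ?_, isCompl_top_bot⟩
    rw [Submodule.mem_bot] at hx ⊢
    rw [hx, Matrix.mulVec_zero]

attribute [local instance] nring nalg

/-- **One character.** -/
theorem main_b {K : Type} [Field K] [NumberField K] (p : ℕ) [hp : Fact p.Prime] {F : Type}
    [NormedField F] [NormedAlgebra ℚ_[p] F] [CompleteSpace F] {n : ℕ} (hn : 0 < n)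
    (r : GK K →* Mat n F) (hr : Continuous r) (hirr : Irr r)
    (c : GK K →* ℚ_[p]) (hc : Continuous c) {d : ℕ} (hd : 0 < d)
    (P : Set (HeightOneSpectrum (𝓞 K)))
    (hP : ∀ ε : ℝ, 0 < ε → ∃ᶠ x : ℕ in atTop, dens (fun v => v ∉ P) x ≤ ε)
    (heig : ∀ v ∈ P, ∃ g, IsFrob v g ∧ ∀ a : AlgebraicClosure F,
      ((r g).charpoly.map (algebraMap F (AlgebraicClosure F))).IsRoot a →
        ∃ m : ℤ, ∃ l : ℕ, 0 < l ∧
          a ^ (d * l) = algebraMap F (AlgebraicClosure F) (algebraMap ℚ_[p] F (c g) ^ m) ^ l) :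
    ∃ m : ℤ, ∃ U : OpenNormalSubgroup (GK K), ∀ u ∈ (U : Subgroup (GK K)),
      r u ^ d = (algebraMap ℚ_[p] F (c u) ^ m) • (1 : Mat n F) := by
  have hult : IsUltrametricDist F := ultra p F
  let ψ : GK K →* F := ((algebraMap ℚ_[p] F : ℚ_[p] →+* F) : ℚ_[p] →* F).comp c
  have hψ : Continuous ψ := (continuous_algebraMap ℚ_[p] F).comp hc
  have hψa : ∀ g, ψ g = algebraMap ℚ_[p] F (c g) := fun g => rfl
  obtain ⟨U, hU, hUψ, hUt⟩ := main_a p r hr (ss_of_irr hirr) (fun _ : Fin 1 => ψ) (fun _ => hψ) hd P hP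
    (by
      intro v hv
      obtain ⟨g, hg, hga⟩ := heig v hv
      refine ⟨g, hg, fun a ha => ?_⟩
      obtain ⟨m, l, hl, h⟩ := hga a ha
      refine ⟨fun _ => m, l, hl, ?_⟩
      rw [Fin.prod_univ_one]
      exact h)
  have hUn : (U : Subgroup (GK K)).Normal := U.isNormal'
  have hrU : ∀ u ∈ (U : Subgroup (GK K)), ‖r u - 1‖ ≤ 1 / 4 := fun u hu =>
    (norm_le (by norm_num)).2 fun i j => hU u hu _ rfl i j
  have hcU : ∀ u ∈ (U : Subgroup (GK K)), ‖c u - 1‖ ≤ 1 / 4 := by
    intro u hu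
    have h1 := hUψ u hu 0
    rw [hψa, ← map_one (algebraMap ℚ_[p] F), ← map_sub, norm_algebraMap'] at h1
    exact h1
  have hone : ∀ u ∈ (U : Subgroup (GK K)), c u = 1 → r u = 1 := by
    intro u hu h
    refine hUt u hu fun _ => ?_
    change ψ u = 1
    rw [hψa, h, map_one]
  have hcc : ∀ g h : GK K, c (g * h * g⁻¹) = c h := by
    intro g h
    have h4 : c g * c g⁻¹ = 1 := by rw [← map_mul, mul_inv_cancel, map_one]
    rw [map_mul, map_mul, mul_right_comm, h4, one_mul]
  have hcomm : ∀ u ∈ (U : Subgroup (GK K)), ∀ v ∈ (U : Subgroup (GK K)), r u * r v = r v * r u := by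
    intro u hu v hv
    have h1 : r (u * v * u⁻¹ * v⁻¹) = 1 := by
      refine hone _ (mul_mem (mul_mem (mul_mem hu hv) (inv_mem hu)) (inv_mem hv)) ?_
      rw [map_mul, hcc, ← map_mul, mul_inv_cancel, map_one]
    have h2 : u * v = (u * v * u⁻¹ * v⁻¹) * (v * u) := by group
    rw [← map_mul, h2, map_mul, h1, one_mul, map_mul]
  by_cases hall : ∀ u ∈ (U : Subgroup (GK K)), c u = 1
  · refine ⟨0, U, fun u hu => ?_⟩
    rw [hone u hu (hall u hu), one_pow, zpow_zero, one_smul]
  push Not at hall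
  obtain ⟨u₁, hu₁, hcu₁⟩ := hall
  -- a Frobenius element in `U` with `c ≠ 1`
  obtain ⟨v, hv, hvS⟩ : ∃ v ∈ P, ∀ g, IsFrob v g → g ∈ (U : Subgroup (GK K)) ∧ c g ≠ 1 := by
    by_contra hcon
    push Not at hcon
    have hUc : IsClosed (((U : Subgroup (GK K)) : Set (GK K))ᶜ) := U.isOpen'.isClosed_compl
    have h1 := Main2.closed_univ (((U : Subgroup (GK K)) : Set (GK K))ᶜ ∪ {g : GK K | c g = 1})
      (hUc.union (isClosed_eq hc continuous_const)) (by
        intro σ hσ τ
        rcases hσ with hσ | hσ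
        · left
          intro h2
          apply hσ
          have h3 := hUn.conj_mem _ h2 τ⁻¹
          have h4 : τ⁻¹ * (τ * σ * τ⁻¹) * τ⁻¹⁻¹ = σ := by group
          rwa [h4] at h3
        · right
          exact (hcc τ σ).trans hσ) P hP (by
        intro v hv
        obtain ⟨g, hg, h2⟩ := hcon v hv
        refine ⟨g, ?_, hg⟩
        by_cases h3 : g ∈ (U : Subgroup (GK K))
        · exact Or.inr (h2 h3)
        · exact Or.inl h3) u₁
    rcases h1 with h1 | h1
    · exact h1 hu₁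
    · exact hcu₁ h1
  obtain ⟨u₀, hu₀F, hu₀⟩ := heig v hv
  obtain ⟨hu₀U, hcu₀⟩ := hvS u₀ hu₀F
  -- an eigenvalue
  obtain ⟨a, ha⟩ : ∃ a : AlgebraicClosure F,
      ((r u₀).charpoly.map (algebraMap F (AlgebraicClosure F))).IsRoot a := by
    apply IsAlgClosed.exists_root
    rw [Polynomial.degree_map, Matrix.charpoly_degree_eq_dim, Fintype.card_fin]
    exact_mod_cast hn.ne'
  obtain ⟨m, l, hl, hal⟩ := hu₀ a ha
  have had : a ^ d = algebraMap F (AlgebraicClosure F) (ψ u₀ ^ m) := by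
    have h1 := Unif.eig_eq p (A := r u₀) (c := ψ u₀ ^ m) (d := d) (N := 1) (m := l) (by
      rw [pow_one]
      exact hrU u₀ hu₀U) (by
      rw [pow_one]
      exact near_zpow (by norm_num) (hUψ u₀ hu₀U 0) m) hl ha (by
      rw [hal]
      rfl)
    rwa [mul_one, pow_one] at h1
  obtain ⟨w, hw0, hw⟩ : ∃ w, w ≠ 0 ∧ (r u₀ ^ d).mulVec w = (ψ u₀ ^ m) • w := by
    apply Unif.exists_eigvec
    have h1 := pow_root (N := d) ha
    rw [had, IsRoot.def, eval_map, Polynomial.eval₂_at_apply, map_eq_zero] at h1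
    exact h1
  have hψ0 : ∀ g, ψ g ≠ 0 := by
    intro g h0
    have h1 : ψ g * ψ g⁻¹ = 1 := by rw [← map_mul, mul_inv_cancel, map_one]
    rw [h0, zero_mul] at h1
    exact zero_ne_one h1
  have hψz : Continuous fun g => ψ g ^ m := hψ.zpow₀ m fun g => Or.inl (hψ0 g)
  -- the subgroup on which the eigenvalue is the power of the character
  let Y : Subgroup (GK K) :=
    { carrier := {u | u ∈ (U : Subgroup (GK K)) ∧ (r u ^ d).mulVec w = (ψ u ^ m) • w}
      one_mem' := by
        refine ⟨(U : Subgroup (GK K)).one_mem, ?_⟩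
        rw [map_one, map_one, one_pow, one_zpow, Matrix.one_mulVec, one_smul]
      mul_mem' := by
        rintro x y ⟨hx, hx'⟩ ⟨hy, hy'⟩
        refine ⟨(U : Subgroup (GK K)).mul_mem hx hy, ?_⟩
        have h1 : Commute (r x) (r y) := hcomm x hx y hy
        rw [map_mul, h1.mul_pow, ← Matrix.mulVec_mulVec, hy', Matrix.mulVec_smul, hx', smul_smul,
          map_mul, mul_zpow, mul_comm]
      inv_mem' := by
        rintro x ⟨hx, hx'⟩
        refine ⟨(U : Subgroup (GK K)).inv_mem hx, ?_⟩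
        have h1 : (r x⁻¹ ^ d).mulVec ((r x ^ d).mulVec w) = w := by
          rw [Matrix.mulVec_mulVec, ← map_pow, ← map_pow, ← map_mul, inv_pow, inv_mul_cancel, map_one,
            Matrix.one_mulVec]
        rw [hx', Matrix.mulVec_smul] at h1
        have h2 : ψ x⁻¹ ^ m * ψ x ^ m = 1 := by
          rw [← mul_zpow, ← map_mul, inv_mul_cancel, map_one, one_zpow]
        have h3 : (ψ x⁻¹ ^ m) • ((ψ x ^ m) • (r x⁻¹ ^ d).mulVec w) = (ψ x⁻¹ ^ m) • w := by rw [h1]
        rwa [smul_smul, h2, one_smul] at h3 }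
  have hYmem : ∀ u, u ∈ Y ↔ u ∈ (U : Subgroup (GK K)) ∧ (r u ^ d).mulVec w = (ψ u ^ m) • w :=
    fun u => Iff.rfl
  have hYcl : IsClosed (Y : Set (GK K)) := by
    have h1 : (Y : Set (GK K)) = (U : Set (GK K)) ∩
        {u | (r u ^ d).mulVec w = (ψ u ^ m) • w} := rfl
    rw [h1]
    refine IsClosed.inter (Subgroup.isClosed_of_isOpen _ U.isOpen') (isClosed_eq ?_ ?_)
    · have h2 : Continuous fun u => r u ^ d := hr.pow d
      exact h2.matrix_mulVec continuous_const
    · exact hψz.smul continuous_const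
  have hCcl : IsClosed (c '' (Y : Set (GK K))) := (hYcl.isCompact.image hc).isClosed
  have hu₀Y : u₀ ∈ Y := ⟨hu₀U, hw⟩
  have hUY : ∀ u ∈ (U : Subgroup (GK K)), u ∈ Y := by
    intro u hu
    -- a power close to `1`
    obtain ⟨k, hk⟩ : ∃ k : ℕ, ‖c (u ^ p ^ k) - 1‖ ≤ ‖c u₀ - 1‖ := by
      have hp1 : (1 : ℝ) < p := by exact_mod_cast hp.out.one_lt
      have hpos : 0 < ‖c u₀ - 1‖ := norm_pos_iff.2 (sub_ne_zero.2 hcu₀)
      obtain ⟨k, hk⟩ := exists_pow_lt_of_lt_one hpos (inv_lt_one_of_one_lt₀ hp1)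
      refine ⟨k, ?_⟩
      have h1 := norm_pow_sub_one (p := p) (hcU u hu) k
      rw [add_sub_cancel] at h1
      rw [map_pow, h1]
      have h2 : 0 ≤ ((p : ℝ)⁻¹) ^ k := by positivity
      nlinarith [hcU u hu, norm_nonneg (c u - 1)]
    obtain ⟨y, hy, hyc⟩ := mem_of_powers (hcU u₀ hu₀U) hcu₀ hk hCcl (fun a => ⟨u₀ ^ a, Y.pow_mem hu₀Y a, map_pow _ _ _⟩)
    have hyU : y ∈ (U : Subgroup (GK K)) := hy.1
    have h1 : r (y⁻¹ * u ^ p ^ k) = 1 := by
      refine hone _ (mul_mem (inv_mem hyU) (pow_mem hu _)) ?_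
      rw [map_mul, ← hyc, ← map_mul, inv_mul_cancel, map_one]
    have h2 : r (u ^ p ^ k) = r y := by
      have h3 : u ^ p ^ k = y * (y⁻¹ * u ^ p ^ k) := by group
      rw [h3, map_mul, h1, mul_one]
    refine ⟨hu, ?_⟩
    -- the twisted matrix
    set s : F := ψ u ^ m with hs
    have hs0 : s ≠ 0 := zpow_ne_zero _ (hψ0 u)
    have hsn : ‖s - 1‖ ≤ 1 / 4 := near_zpow (by norm_num) (hUψ u hu 0) m
    set B : Mat n F := s⁻¹ • (r u ^ d) with hB
    have hB1 : ‖B - 1‖ ≤ 1 / 4 := by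
      have h3 : B - 1 = s⁻¹ • ((r u ^ d - 1) - (s - 1) • (1 : Mat n F)) := by
        rw [hB, smul_sub, smul_sub, smul_smul, mul_sub, inv_mul_cancel₀ hs0, mul_one, sub_smul,
          one_smul]
        abel
      have hult' : IsUltrametricDist (Mat n F) := ultraMat
      rw [h3, norm_smul, norm_inv, norm_one_of_near (hsn.trans_lt (by norm_num)), inv_one, one_mul]
      refine (Log.norm_sub_max _ _).trans (max_le ?_ ?_)
      · exact Unif.near_pow p (hrU u hu) d
      · rw [norm_smul]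
        have h2 : ‖(1 : Mat n F)‖ ≤ 1 := by
          rw [norm_le zero_le_one]
          intro i j
          by_cases hij : i = j
          · subst hij
            simp
          · simp [hij]
        nlinarith [norm_nonneg (s - 1), norm_nonneg (1 : Mat n F)]
    have hBp : (B ^ p ^ k).mulVec w = w := by
      have h3 : B ^ p ^ k = (s⁻¹ ^ p ^ k) • (r (u ^ p ^ k)) ^ d := by
        rw [hB, _root_.smul_pow, map_pow, ← pow_mul, ← pow_mul, mul_comm]
      rw [h3, h2, Matrix.smul_mulVec, ((hYmem y).1 hy).2, smul_smul]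
      have h4 : ψ y = ψ u ^ p ^ k := by
        rw [hψa, hyc, map_pow, map_pow, ← hψa]
      have h5 : s⁻¹ ^ p ^ k * ψ y ^ m = 1 := by
        rw [h4, hs, ← zpow_natCast, ← zpow_natCast, ← zpow_neg, ← _root_.zpow_mul, ← _root_.zpow_mul,
          ← zpow_add₀ (hψ0 u)]
        have h6 : -m * ((p ^ k : ℕ) : ℤ) + ((p ^ k : ℕ) : ℤ) * m = 0 := by ring
        rw [h6, zpow_zero]
      rw [h5, one_smul]
    set f := algebraMap F (AlgebraicClosure F) with hf
    have hmap : ∀ M : Mat n F, (f.mapMatrix M).mulVec (fun i => f (w i)) =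
        fun i => f (M.mulVec w i) := by
      intro M
      funext i
      simp only [Matrix.mulVec, dotProduct, map_sum, map_mul]
      rfl
    have h6 := Unif.eig_one p hB1 (fun i => f (w i)) (pow_pos hp.out.pos k) (by
      rw [hmap, hBp])
    rw [hmap] at h6
    have h7 : B.mulVec w = w := by
      funext i
      exact f.injective (congrFun h6 i)
    rw [hB, Matrix.smul_mulVec, inv_smul_eq_iff₀ hs0] at h7
    exact h7
  -- the stable subspace
  let W : Submodule F (Fin n → F) :=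
    { carrier := {x | ∀ u ∈ (U : Subgroup (GK K)), (r u ^ d).mulVec x = (ψ u ^ m) • x}
      zero_mem' := fun u _ => by rw [Matrix.mulVec_zero, smul_zero]
      add_mem' := by
        intro x y hx hy u hu
        rw [Matrix.mulVec_add, hx u hu, hy u hu, smul_add]
      smul_mem' := by
        intro t x hx u hu
        rw [Matrix.mulVec_smul, hx u hu, smul_comm] }
  have hWst : ∀ g, ∀ x ∈ W, (r g).mulVec x ∈ W := by
    intro g x hx u hu
    have h1 : g⁻¹ * u * g ∈ (U : Subgroup (GK K)) := by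
      have := hUn.conj_mem u hu g⁻¹
      rwa [inv_inv] at this
    have h2 : r u ^ d * r g = r g * r (g⁻¹ * u * g) ^ d := by
      rw [← map_pow, ← map_pow, ← map_mul, ← map_mul]
      congr 1
      have h3 : (g⁻¹ * u * g) ^ d = g⁻¹ * u ^ d * g := by
        have := conj_pow (a := g⁻¹) (b := u) (i := d)
        rwa [inv_inv] at this
      rw [h3]
      group
    have h3 : ψ (g⁻¹ * u * g) = ψ u := by
      have h4 := hcc g⁻¹ u
      rw [inv_inv] at h4
      rw [hψa, hψa, h4]
    rw [Matrix.mulVec_mulVec, h2, ← Matrix.mulVec_mulVec, hx _ h1, Matrix.mulVec_smul, h3]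
  have hWtop : W = ⊤ := by
    rcases hirr W hWst with h1 | h1
    · exfalso
      apply hw0
      have h2 : w ∈ W := fun u hu => (hUY u hu).2
      rw [h1, Submodule.mem_bot] at h2
      exact h2
    · exact h1
  refine ⟨m, U, fun u hu => ?_⟩
  apply Matrix.toLin'.injective
  refine LinearMap.ext fun x => ?_
  rw [Matrix.toLin'_apply, Matrix.toLin'_apply, Matrix.smul_mulVec, Matrix.one_mulVec]
  have h1 : x ∈ W := by
    rw [hWtop]
    trivial
  exact h1 u hu

end Pool.Agent.N683.TE
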