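import Pool.Agent.N683.TE.B
import Pool.Agent.R401.Sup4

/-!
# Tate twists of representations with finite image
-/

set_option autoImplicit false
set_option linter.unusedSectionVars false

namespace Pool.Agent.N683.TE

open Pool.Agent.N817.PL Pool.Agent.N817.PL.DD Pool.Agent.N817.PL.Nrm
open Pool.Agent.N817.PL.Iso (Irr)
open Filter Topology Polynomial NumberField IsDedekindDomain
open Pool.Agent.W401.Cheb Pool.Agent.W528.Ord
open Pool.Agent.R401.Sup3 (cyc continuous_cyc cyc_frob)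
open Pool.Agent.R401.Img (mt)

/-- the cyclotomic character with values in `ℚ_p` -/
noncomputable def cp (K : Type) [Field K] [NumberField K] (p : ℕ) [Fact p.Prime] : GK K →* ℚ_[p] :=
  cyc K p ℚ_[p]

lemma cyc_eq (K : Type) [Field K] [NumberField K] (p : ℕ) [Fact p.Prime] (F : Type) [NormedField F]
    [NormedAlgebra ℚ_[p] F] (g : GK K) : cyc K p F g = algebraMap ℚ_[p] F (cp K p g) := by
  unfold cp
  rw [Pool.Agent.R401.Sup3.cyc_apply, Pool.Agent.R401.Sup3.cyc_apply]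
  rfl

attribute [local instance] nring nalg

lemma eq_one_of_pow (p : ℕ) [hp : Fact p.Prime] {F : Type} [NormedField F] [NormedAlgebra ℚ_[p] F]
    [CompleteSpace F] [IsUltrametricDist F] {n : ℕ} {B : Mat n F} (hB : ‖B - 1‖ ≤ 1 / 4) {d : ℕ}
    (hd : 0 < d) (h : B ^ d = 1) : B = 1 := by
  set f := algebraMap F (AlgebraicClosure F) with hf
  apply Matrix.toLin'.injective
  refine LinearMap.ext fun w => ?_
  rw [Matrix.toLin'_apply, Matrix.toLin'_apply, Matrix.one_mulVec]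
  have hmap : ∀ M : Mat n F, (f.mapMatrix M).mulVec (fun i => f (w i)) =
      fun i => f (M.mulVec w i) := by
    intro M
    funext i
    simp only [Matrix.mulVec, dotProduct, map_sum, map_mul]
    rfl
  have h6 := Unif.eig_one p hB (fun i => f (w i)) hd (by
    rw [hmap, h, Matrix.one_mulVec])
  rw [hmap] at h6
  funext i
  exact f.injective (congrFun h6 i)

/-- **Unbounded Tate weights.** -/
theorem main_d {K : Type} [Field K] [NumberField K] (p : ℕ) [hp : Fact p.Prime] {F : Type}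
    [NormedField F] [NormedAlgebra ℚ_[p] F] [CompleteSpace F] {n : ℕ} (hn : 0 < n)
    (ρ : GK K →* GL (Fin n) F) (hρ : Continuous ρ) (hirr : Irr ((Units.coeHom _).comp ρ))
    {d : ℕ} (hd : 0 < d) (P : Set (HeightOneSpectrum (𝓞 K)))
    (hP : ∀ ε : ℝ, 0 < ε → ∃ᶠ x : ℕ in atTop, dens (fun v => v ∉ P) x ≤ ε)
    (heig : ∀ v ∈ P, ∃ g, IsFrob v g ∧ ∀ a : AlgebraicClosure F,
      ((mt ρ g).charpoly.map (algebraMap F (AlgebraicClosure F))).IsRoot a →
        ∃ m : ℤ, ∃ l : ℕ, 0 < l ∧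
          a ^ (d * l) = (Ideal.absNorm v.asIdeal : AlgebraicClosure F) ^ (m * l)) :
    ∃ m : ℤ, (∃ U : Subgroup (GK K), U.Normal ∧ IsOpen (U : Set (GK K)) ∧ ∀ u ∈ U,
        mt ρ u ^ d = (cyc K p F u ^ m) • (1 : Matrix (Fin n) (Fin n) F)) ∧
      ∀ s : ℤ, m = d * s → ∃ (T : Type) (_ : Finite T) (_ : MulAction (GK K) T),
        (∀ t : T, IsOpen (MulAction.stabilizer (GK K) t : Set (GK K))) ∧
        ∃ J : (Fin n → F) →ₗ[F] (T → F), Function.Injective J ∧
          ∀ (g : GK K) (x : Fin n → F) (t : T),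
            J ((cyc K p F g ^ (-s)) • (mt ρ g).mulVec x) t = J x (g⁻¹ • t) := by
  have hult : IsUltrametricDist F := ultra p F
  have hchar : CharZero F := charZero_of_injective_algebraMap (algebraMap ℚ_[p] F).injective
  let r : GK K →* Mat n F := (Units.coeHom _).comp ρ
  have hr : Continuous r := Units.continuous_val.comp hρ
  have hrm : ∀ g, r g = mt ρ g := fun g => rfl
  have hcp : Continuous (cp K p) := continuous_cyc K p ℚ_[p]
  -- the places above `p` do not matter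
  have hp' : ∀ ε : ℝ, 0 < ε → ∃ᶠ x : ℕ in atTop,
      dens (fun v => v ∉ P ∩ {v : HeightOneSpectrum (𝓞 K) | (p : 𝓞 K) ∉ v.asIdeal}) x ≤ ε := by
    intro ε hε
    have h1 := Pool.Agent.R401.Sup2.dens_fin (fun v : HeightOneSpectrum (𝓞 K) => (p : 𝓞 K) ∈ v.asIdeal)
      (Pool.Agent.W352.ChAbs.over_le p (Fact.out : p.Prime)).1
    refine ((hP (ε / 2) (by linarith)).and_eventually
      (h1.eventually (ge_mem_nhds (show (0 : ℝ) < ε / 2 by linarith)))).mono ?_
    rintro x ⟨h2, h3⟩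
    have h4 : dens (fun v => v ∉ P ∩ {v : HeightOneSpectrum (𝓞 K) | (p : 𝓞 K) ∉ v.asIdeal}) x ≤
        dens (fun v => v ∉ P) x + dens (fun v : HeightOneSpectrum (𝓞 K) => (p : 𝓞 K) ∈ v.asIdeal) x := by
      refine (dens_mono (fun v hv => ?_) x).trans (dens_or _ _ x)
      by_cases h5 : v ∈ P
      · right
        by_contra h6
        exact hv ⟨h5, h6⟩
      · exact Or.inl h5
    linarith
  obtain ⟨m, U, hU⟩ := main_b p hn r hr hirr (cp K p) hcp hd
    (P ∩ {v : HeightOneSpectrum (𝓞 K) | (p : 𝓞 K) ∉ v.asIdeal}) hp' (by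
    rintro v ⟨hv, hvp⟩
    obtain ⟨g, hg, hga⟩ := heig v hv
    refine ⟨g, hg, fun a ha => ?_⟩
    obtain ⟨m, l, hl, h⟩ := hga a ha
    refine ⟨m, l, hl, ?_⟩
    rw [← cyc_eq, cyc_frob p F hvp hg, h, map_zpow₀, map_natCast, _root_.zpow_mul, zpow_natCast])
  have hUn : (U : Subgroup (GK K)).Normal := U.isNormal'
  refine ⟨m, ⟨(U : Subgroup (GK K)), hUn, U.isOpen', fun u hu => ?_⟩, ?_⟩
  · rw [← hrm, hU u hu, cyc_eq]
  rintro s rfl
  refine Pool.Agent.R401.Sup4.embed hn ρ hρ (cyc K p F) (continuous_cyc K p F) s ?_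
  -- a smaller subgroup
  have hψ0 : ∀ g, cyc K p F g ≠ 0 := by
    intro g h0
    have h1 : cyc K p F g * cyc K p F g⁻¹ = 1 := by rw [← map_mul, mul_inv_cancel, map_one]
    rw [h0, zero_mul] at h1
    exact zero_ne_one h1
  have hO : IsOpen {g : GK K | ‖cyc K p F g - 1‖ < 1 / 4} :=
    isOpen_lt (((continuous_cyc K p F).sub continuous_const).norm) continuous_const
  let instM : MeasurableSpace (GK K) := borel (GK K)
  have instB : BorelSpace (GK K) := ⟨rfl⟩
  obtain ⟨V, hVO, hV⟩ := Top.exists_small r hr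
    ({g : GK K | ‖cyc K p F g - 1‖ < 1 / 4} ∩ ((U : Subgroup (GK K)) : Set (GK K)))
    (hO.inter U.isOpen') ⟨by
      rw [Set.mem_ofPred_eq, map_one, sub_self, norm_zero]
      norm_num, (U : Subgroup (GK K)).one_mem⟩
  refine Subgroup.isOpen_mono (H₁ := (V : Subgroup (GK K))) ?_ V.isOpen'
  intro u hu
  obtain ⟨h1, h2⟩ := hVO hu
  have h1' : ‖cyc K p F u - 1‖ ≤ 1 / 4 := le_of_lt h1
  set t : F := cyc K p F u ^ s with ht
  have ht0 : t ≠ 0 := zpow_ne_zero _ (hψ0 u)
  have htn : ‖t - 1‖ ≤ 1 / 4 := near_zpow (by norm_num) h1' s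
  set B : Mat n F := t⁻¹ • r u with hB
  have hB1 : ‖B - 1‖ ≤ 1 / 4 := by
    have h3 : B - 1 = t⁻¹ • ((r u - 1) - (t - 1) • (1 : Mat n F)) := by
      rw [hB, smul_sub, smul_sub, smul_smul, mul_sub, inv_mul_cancel₀ ht0, mul_one, sub_smul,
        one_smul]
      abel
    have hult' : IsUltrametricDist (Mat n F) := ultraMat
    rw [h3, norm_smul, norm_inv, norm_one_of_near (htn.trans_lt (by norm_num)), inv_one, one_mul]
    refine (Log.norm_sub_max _ _).trans (max_le (hV u hu) ?_)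
    rw [norm_smul]
    have h2 : ‖(1 : Mat n F)‖ ≤ 1 := by
      rw [norm_le zero_le_one]
      intro i j
      by_cases hij : i = j
      · subst hij
        simp
      · simp [hij]
    nlinarith [norm_nonneg (t - 1), norm_nonneg (1 : Mat n F)]
  have hBd : B ^ d = 1 := by
    rw [hB, _root_.smul_pow, hU u h2, smul_smul, ← cyc_eq, ht]
    have h5 : (cyc K p F u ^ s)⁻¹ ^ d * cyc K p F u ^ ((d : ℤ) * s) = 1 := by
      rw [← zpow_natCast, ← zpow_neg, ← _root_.zpow_mul, ← zpow_add₀ (hψ0 u)]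
      have h6 : -s * (d : ℤ) + (d : ℤ) * s = 0 := by ring
      rw [h6, zpow_zero]
    rw [h5, one_smul]
  have hB2 := eq_one_of_pow p hB1 hd hBd
  refine ⟨t, ?_, ?_⟩
  · rw [← hrm]
    rw [hB, inv_smul_eq_iff₀ ht0] at hB2
    exact hB2
  · rw [ht, ← zpow_natCast, ← _root_.zpow_mul, mul_comm]
    rfl

end Pool.Agent.N683.TE
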